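import Mathlib

/-!
# The edge-distinguishing game on triangular ladders: Player 1 wins on `T₈` and on `T₁₀`

Problem MP_08a4a0_co asks whether Player 2 wins the edge-distinguishing game on `T_n` (with
`λ(T_n)` colours) for every `n ≥ 4`.  We show that this is false: `λ(T₈) = λ(T₁₀) = 7` and
Player 1 has a winning strategy on `T₈` and on `T₁₀`.  The strategies are explicit; they are
replayed by a Boolean checker, which the kernel evaluates and which is proved sound (colours
that have not been used yet are interchangeable).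
-/

namespace Pool.Agent.Results.MP_08a4a0_co.FirstWinsTen

open Function

section Defs

variable {V : Type} {C : Type}

/-- `c : V → C` is an edge-distinguishing colouring of `G`: distinct edges `uv` receive distinct
multisets `{c u, c v}`. -/
def EdgeDistinguishing (G : SimpleGraph V) (c : V → C) : Prop :=
  Set.InjOn (Sym2.map c) G.edgeSet

/-- The edge-distinguishing chromatic number `λ(G)`. -/
noncomputable def lam (G : SimpleGraph V) : ℕ :=
  sInf {k | ∃ c : V → Fin k, EdgeDistinguishing G c}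

/-- The edges of `G[U]`, where `U` is the set of the vertices coloured by the partial colouring
`c` (`none` = not yet coloured). -/
def colouredEdges (G : SimpleGraph V) (c : V → Option C) : Set (Sym2 V) :=
  {e | e ∈ G.edgeSet ∧ ∀ v ∈ e, c v ≠ none}

/-- The partial colouring `c` gives distinct multisets to distinct edges of `G[U]`. -/
def Legal (G : SimpleGraph V) (c : V → Option C) : Prop :=
  Set.InjOn (Sym2.map c) (colouredEdges G c)

/-- `Move G c d`: a legal move leads from the position `c` to the position `d`: some vertex that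
is not yet coloured receives a colour, and the new position is legal. -/
def Move [DecidableEq V] (G : SimpleGraph V) (c d : V → Option C) : Prop :=
  ∃ v a, c v = none ∧ d = update c v (some a) ∧ Legal G d

/-- `Wins G c`: the player who has to move in the position `c` has a winning strategy, i.e. can
make a legal move such that after every legal reply he has again a winning strategy (in
particular he wins if there is no legal reply). -/
inductive Wins [DecidableEq V] (G : SimpleGraph V) : (V → Option C) → Prop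
  | intro (c d : V → Option C) (hcd : Move G c d) (h : ∀ e, Move G d e → Wins G e) : Wins G c

/-- Player 1 has a winning strategy in the edge-distinguishing game with `k` colours. -/
def FirstWins [DecidableEq V] (G : SimpleGraph V) (k : ℕ) : Prop :=
  Wins G (fun _ => (none : Option (Fin k)))

/-- Player 2 has a winning strategy in the edge-distinguishing game with `k` colours: after every
legal first move, the player to move (Player 2) has a winning strategy. -/
def SecondWins [DecidableEq V] (G : SimpleGraph V) (k : ℕ) : Prop :=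
  ∀ d, Move G (fun _ => (none : Option (Fin k))) d → Wins G d

end Defs

/-- The triangular ladder `T_n`: `i` and `j` are adjacent when `|i - j| ∈ {1, 2}`. -/
def T (n : ℕ) : SimpleGraph (Fin n) where
  Adj i j := (i : ℕ) + 1 = j ∨ (i : ℕ) + 2 = j ∨ (j : ℕ) + 1 = i ∨ (j : ℕ) + 2 = i
  symm := ⟨fun i j h => by omega⟩
  loopless := ⟨fun i h => by omega⟩

/-! ## Generalities -/

section General

variable {V : Type} [DecidableEq V] {C : Type}

/-- Both players cannot have a winning strategy. -/
theorem not_both (G : SimpleGraph V) (c : V → Option C) (h : Wins G c) :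
    ¬ ∀ d, Move G c d → Wins G d := by
  induction h with
  | intro c d hcd h ih =>
    intro hall
    obtain ⟨_, e, hde, he⟩ := hall d hcd
    exact ih e hde he

omit [DecidableEq V] in
theorem legal_perm (G : SimpleGraph V) (σ : Equiv.Perm C) (c : V → Option C)
    (h : Legal G c) : Legal G (fun v => (c v).map σ) := by
  intro e he f hf hef
  have hc : ∀ e, e ∈ colouredEdges G (fun v => (c v).map σ) → e ∈ colouredEdges G c := by
    intro e he
    refine ⟨he.1, fun v hv hn => he.2 v hv (by simp [hn])⟩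
  apply h (hc e he) (hc f hf)
  have h1 : ∀ e : Sym2 V, Sym2.map (fun v => (c v).map σ) e
      = Sym2.map (Option.map σ) (Sym2.map c e) := by
    intro e
    rw [Sym2.map_map]
    rfl
  rw [h1, h1] at hef
  exact Sym2.map.injective (Option.map_injective σ.injective) hef

theorem move_perm (G : SimpleGraph V) (σ : Equiv.Perm C) (c d : V → Option C)
    (h : Move G c d) : Move G (fun v => (c v).map σ) (fun v => (d v).map σ) := by
  obtain ⟨v, a, h1, h2, h3⟩ := h
  refine ⟨v, σ a, by simp [h1], ?_, legal_perm G σ d h3⟩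
  subst h2
  funext w
  by_cases hw : w = v
  · subst hw; simp
  · simp [update_of_ne hw]

theorem wins_perm (G : SimpleGraph V) (σ : Equiv.Perm C) (c : V → Option C)
    (h : Wins G c) : Wins G (fun v => (c v).map σ) := by
  induction h with
  | intro c d hcd h ih =>
    refine Wins.intro _ _ (move_perm G σ c d hcd) ?_
    intro e he
    have h2 : Move G d (fun v => (e v).map σ.symm) := by
      have := move_perm G σ.symm _ _ he
      simpa [Option.map_map, Function.comp_def] using this
    have h3 := ih _ h2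
    simpa [Option.map_map, Function.comp_def] using h3

end General

/-! ## The Boolean checker

Positions are coded by natural numbers, four bits per vertex: the vertex `i` of `T_n` corresponds
to the digit `i + 2`, a digit `0` means that the vertex is not coloured, and the digits `1, …, k`
are the colours.  A second number collects the codes of the multisets of the coloured edges. -/

/-- `force x f = f x`; it makes the kernel evaluate `x` first. -/
noncomputable def force {α : Type} (x : ℕ) (f : ℕ → α) : α :=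
  Nat.rec (motive := fun _ => α) (f 0) (fun n _ => f n) (Nat.add x 1)

theorem force_eq {α : Type} (x : ℕ) (f : ℕ → α) : force x f = f x := rfl

/-- The digit of `p` at the place `i`. -/
def dg (p i : ℕ) : ℕ := Nat.mod (Nat.shiftRight p (Nat.mul 4 i)) 16

/-- The code of the multiset `{a, b}`. -/
def cd (a b : ℕ) : ℕ := Nat.add (Nat.pow 2 a) (Nat.pow 2 b)

/-- Add the code of `{a, b}` to the set `U` of codes, if `b ≠ 0`; fail if it is already there. -/
noncomputable def step1 {α : Type} (U a b : ℕ) (fail : α) (f : ℕ → α) : α :=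
  bif Nat.beq b 0 then f U else force (cd a b) fun c =>
    bif Nat.beq (Nat.land (Nat.shiftRight U c) 1) 0 then
      force (Nat.lor U (Nat.shiftLeft 1 c)) f else fail

/-- Give the colour `a` to the place `v`. -/
noncomputable def place {α : Type} (p U v a : ℕ) (fail : α) (f : ℕ → ℕ → α) : α :=
  force (dg p (v - 2)) fun b => step1 U a b fail fun U =>
  force (dg p (v - 1)) fun b => step1 U a b fail fun U =>
  force (dg p (v + 1)) fun b => step1 U a b fail fun U =>
  force (dg p (v + 2)) fun b => step1 U a b fail fun U =>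
  force (Nat.add p (Nat.shiftLeft a (Nat.mul 4 v))) fun p => f p U

/-- Thread the state through a list. -/
noncomputable def foldO (f : List ℕ → ℕ → Option (List ℕ)) (L : List ℕ) :
    List ℕ → Option (List ℕ) :=
  List.rec (motive := fun _ => List ℕ → Option (List ℕ)) (fun s => some s)
    (fun a _ ih s => Option.rec (motive := fun _ => Option (List ℕ)) none ih (f s a)) L

/-- The maximum. -/
def mx (a b : ℕ) : ℕ := bif Nat.ble a b then b else a

/-- The checker.  In the position `p` (with the set `U` of codes) exactly the colours `≤ m` may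
occur; the last argument is the list of the tokens `16 * v + a` (give the colour `a` to the place
`v`), which describes the strategy in depth-first order. -/
noncomputable def chk (n k : ℕ) (W B : List ℕ) : ℕ → ℕ → ℕ → ℕ → List ℕ → Option (List ℕ)
  | 0, _, _, _, _ => none
  | _ + 1, _, _, _, [] => none
  | f + 1, p, U, m, t :: s =>
    force (t / 16) fun v => force (t % 16) fun a =>
    bif Nat.ble 2 v && (Nat.ble v (n + 1) && (Nat.beq (dg p v) 0 && (Nat.ble 1 a && Nat.ble a k)))
    then
      place p U v a none fun p U => force (mx m a) fun m =>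
        foldO (fun s w =>
          bif Nat.beq (dg p w) 0 then
            foldO (fun s b =>
              bif Nat.ble b (Nat.add m 1) then
                place p U w b (some s) fun p U => chk n k W B f p U (mx m b) s
              else some s) B s
          else some s) W s
    else none

/-! ## Soundness -/

theorem foldO_some (f : List ℕ → ℕ → Option (List ℕ)) :
    ∀ (L : List ℕ) (s s' : List ℕ), foldO f L s = some s' → ∀ x ∈ L, ∃ s1 s2, f s1 x = some s2
  | [], _, _, _, x, hx => by simp at hx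
  | a :: L, s, s', h, x, hx => by
    change Option.rec (motive := fun _ => Option (List ℕ)) none (foldO f L) (f s a) = some s' at h
    cases hfa : f s a with
    | none => rw [hfa] at h; exact absurd h (by simp)
    | some s1 =>
      rw [hfa] at h
      rcases List.mem_cons.1 hx with rfl | hx
      · exact ⟨s, s1, hfa⟩
      · exact foldO_some f L s1 s' h x hx

theorem mx_eq (a b : ℕ) : mx a b = max a b := by
  unfold mx
  by_cases h : a ≤ b
  · rw [Nat.ble_eq_true_of_le h, cond_true, max_eq_right h]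
  · have : Nat.ble a b = false := by
      rw [← Bool.not_eq_true, Nat.ble_eq]; exact h
    rw [this, cond_false, max_eq_left (by omega)]

theorem dg_eq (p i : ℕ) : dg p i = p / 16 ^ i % 16 := by
  change (p >>> (4 * i)) % 16 = _
  rw [Nat.shiftRight_eq_div_pow, Nat.pow_mul]

theorem dg_lt (p i : ℕ) : dg p i < 16 := by
  rw [dg_eq]; exact Nat.mod_lt _ (by norm_num)

theorem dg_add {p v a : ℕ} (h : dg p v = 0) (ha : a < 16) (j : ℕ) :
    dg (Nat.add p (Nat.shiftLeft a (Nat.mul 4 v))) j = update (dg p) v a j := by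
  have he : Nat.add p (Nat.shiftLeft a (Nat.mul 4 v)) = p + a * 16 ^ v := by
    change p + a <<< (4 * v) = _
    rw [Nat.shiftLeft_eq, Nat.pow_mul]
  rw [he]
  have hpos : ∀ j, 0 < 16 ^ j := fun j => Nat.pow_pos (by norm_num)
  rw [dg_eq] at h
  have hdiv : (p + a * 16 ^ v) / 16 ^ v = p / 16 ^ v + a := Nat.add_mul_div_right _ _ (hpos v)
  rcases lt_trichotomy j v with hj | hj | hj
  · rw [update_of_ne (by omega), dg_eq, dg_eq]
    obtain ⟨d, rfl⟩ : ∃ d, v = j + 1 + d := ⟨v - j - 1, by omega⟩
    have : a * 16 ^ (j + 1 + d) = (a * 16 ^ d * 16) * 16 ^ j := by ring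
    rw [this, Nat.add_mul_div_right _ _ (hpos j)]
    omega
  · subst hj
    rw [update_self, dg_eq, hdiv]
    omega
  · rw [update_of_ne (by omega), dg_eq, dg_eq]
    obtain ⟨d, rfl⟩ : ∃ d, j = v + (1 + d) := ⟨j - v - 1, by omega⟩
    rw [Nat.pow_add, ← Nat.div_div_eq_div_mul, ← Nat.div_div_eq_div_mul, hdiv, Nat.pow_add,
      ← Nat.div_div_eq_div_mul, ← Nat.div_div_eq_div_mul]
    have h1 : (p / 16 ^ v + a) / 16 ^ 1 = p / 16 ^ v / 16 ^ 1 := by omega
    rw [h1]

/-- The coloured edges (as ordered pairs of places). -/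
def E (g : ℕ → ℕ) : Set (ℕ × ℕ) :=
  {e | (e.2 = e.1 + 1 ∨ e.2 = e.1 + 2) ∧ g e.1 ≠ 0 ∧ g e.2 ≠ 0}

/-- The code of an edge. -/
def cf (g : ℕ → ℕ) (e : ℕ × ℕ) : ℕ := cd (g e.1) (g e.2)

/-- `U` is the set of the (distinct) codes of the edges in `S`. -/
def Good (S : Set (ℕ × ℕ)) (c : ℕ × ℕ → ℕ) (U : ℕ) : Prop :=
  Set.InjOn c S ∧ ∀ x, Nat.testBit U x = true ↔ x ∈ c '' S

theorem good_insert {S : Set (ℕ × ℕ)} {c : ℕ × ℕ → ℕ} {U : ℕ} (h : Good S c U) {e : ℕ × ℕ}
    (he : e ∉ S) (ht : Nat.testBit U (c e) = false) :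
    Good (insert e S) c (Nat.lor U (Nat.shiftLeft 1 (c e))) := by
  obtain ⟨h1, h2⟩ := h
  have hn : c e ∉ c '' S := by
    rw [← h2]; simp [ht]
  refine ⟨(Set.injOn_insert he).2 ⟨h1, hn⟩, ?_⟩
  intro x
  change (U ||| (1 <<< c e)).testBit x = true ↔ _
  rw [Nat.testBit_lor, Nat.one_shiftLeft, Nat.testBit_two_pow, Set.image_insert_eq,
    Set.mem_insert_iff, ← h2]
  simp only [Bool.or_eq_true, decide_eq_true_eq]
  constructor
  · rintro (h | h)
    · exact Or.inr h
    · exact Or.inl h.symm
  · rintro (h | h)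
    · exact Or.inr h.symm
    · exact Or.inl h

theorem testBit_iff (U c : ℕ) :
    Nat.beq (Nat.land (Nat.shiftRight U c) 1) 0 = !(Nat.testBit U c) := by
  have h1 : Nat.land (Nat.shiftRight U c) 1 = (Nat.testBit U c).toNat := by
    change (U >>> c) &&& 1 = _
    rw [Nat.and_one_is_mod, Nat.shiftRight_eq_div_pow, Nat.toNat_testBit]
  rw [h1]
  cases Nat.testBit U c <;> rfl

/-- The effect of `step1`: the optional edge `e` is added to `S`. -/
theorem step1_spec {S : Set (ℕ × ℕ)} {c : ℕ × ℕ → ℕ} {U a b : ℕ} (h : Good S c U) {e : ℕ × ℕ}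
    (he : e ∉ S) (hc : b ≠ 0 → c e = cd a b) :
    (∃ U', Good (S ∪ {x | x = e ∧ b ≠ 0}) c U' ∧
      ∀ (α : Type) (fail : α) (f : ℕ → α), step1 U a b fail f = f U') ∨
    ((¬ Set.InjOn c (S ∪ {x | x = e ∧ b ≠ 0})) ∧
      ∀ (α : Type) (fail : α) (f : ℕ → α), step1 U a b fail f = fail) := by
  by_cases hb : b = 0
  · left
    refine ⟨U, ?_, ?_⟩
    · have : S ∪ {x | x = e ∧ b ≠ 0} = S := by
        ext x; simp [hb]
      rw [this]; exact h
    · intro α fail f
      subst hb
      rfl
  · have hS : S ∪ {x | x = e ∧ b ≠ 0} = insert e S := by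
      ext x; simp [hb]
    have hb' : Nat.beq b 0 = false := by
      rw [← Bool.not_eq_true, Nat.beq_eq]; exact hb
    rw [hS]
    cases ht : Nat.testBit U (c e) with
    | false =>
      left
      refine ⟨_, good_insert h he ht, ?_⟩
      intro α fail f
      unfold step1
      rw [hb', cond_false, force_eq, testBit_iff, ← hc hb, ht, Bool.not_false, cond_true, force_eq]
    | true =>
      right
      refine ⟨?_, ?_⟩
      · intro hinj
        obtain ⟨_, h2⟩ := (Set.injOn_insert he).1 hinj
        exact h2 ((h.2 _).1 ht)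
      · intro α fail f
        unfold step1
        rw [hb', cond_false, force_eq, testBit_iff, ← hc hb, ht, Bool.not_true, cond_false]

/-- The effect of `place`. -/
theorem place_spec {p U v a : ℕ} (hG : Good (E (dg p)) (cf (dg p)) U) (hv : 2 ≤ v)
    (hp : dg p v = 0) (ha0 : a ≠ 0) (ha : a < 16) :
    (∃ U', Good (E (update (dg p) v a)) (cf (update (dg p) v a)) U' ∧
      ∀ (α : Type) (fail : α) (f : ℕ → ℕ → α),
        place p U v a fail f = f (Nat.add p (Nat.shiftLeft a (Nat.mul 4 v))) U') ∨
    ((¬ Set.InjOn (cf (update (dg p) v a)) (E (update (dg p) v a))) ∧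
      ∀ (α : Type) (fail : α) (f : ℕ → ℕ → α), place p U v a fail f = fail) := by
  set g := dg p with hg
  set g' := update g v a with hg'
  have hne : ∀ w, w ≠ v → g' w = g w := fun w hw => update_of_ne hw _ _
  have hself : g' v = a := update_self _ _ _
  have hsym : ∀ x y, cd x y = cd y x := fun x y => Nat.add_comm _ _
  -- the edges of the old position
  have h0 : Good (E g) (cf g') U := by
    have heq : Set.EqOn (cf g) (cf g') (E g) := by
      rintro ⟨i, j⟩ ⟨_, h1, h2⟩
      have hi : i ≠ v := by rintro rfl; exact h1 hp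
      have hj : j ≠ v := by rintro rfl; exact h2 hp
      simp only [cf, hne i hi, hne j hj]
    refine ⟨(heq.injOn_iff).1 hG.1, fun x => ?_⟩
    rw [hG.2 x, heq.image_eq]
  have hnot : ∀ e : ℕ × ℕ, (e.1 = v ∨ e.2 = v) → e ∉ E g := by
    rintro ⟨i, j⟩ hij ⟨_, h1, h2⟩
    rcases hij with h | h
    · simp only at h; subst h; exact h1 hp
    · simp only at h; subst h; exact h2 hp
  have hcode1 : ∀ w, w ≠ v → cf g' (w, v) = cd a (g w) := by
    intro w hw; simp only [cf, hne w hw, hself]; exact hsym _ _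
  have hcode2 : ∀ w, w ≠ v → cf g' (v, w) = cd a (g w) := by
    intro w hw; simp only [cf, hne w hw, hself]
  have hE : E g' = (((E g ∪ {x | x = (v - 2, v) ∧ g (v - 2) ≠ 0}) ∪
      {x | x = (v - 1, v) ∧ g (v - 1) ≠ 0}) ∪ {x | x = (v, v + 1) ∧ g (v + 1) ≠ 0}) ∪
      {x | x = (v, v + 2) ∧ g (v + 2) ≠ 0} := by
    ext ⟨i, j⟩
    simp only [E, Set.mem_union, Set.mem_ofPred_eq, Prod.mk.injEq]
    by_cases hi : i = v
    · subst hi
      rw [hself]
      constructor
      · rintro ⟨hij, _, h2⟩
        rcases hij with rfl | rfl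
        · rw [hne _ (by omega)] at h2
          exact Or.inl (Or.inr ⟨⟨rfl, rfl⟩, h2⟩)
        · rw [hne _ (by omega)] at h2
          exact Or.inr ⟨⟨rfl, rfl⟩, h2⟩
      · rintro ((((⟨_, h1, _⟩ | ⟨⟨h1, _⟩, _⟩) | ⟨⟨h1, _⟩, _⟩) | ⟨⟨_, h1⟩, h2⟩) | ⟨⟨_, h1⟩, h2⟩)
        · exact absurd hp h1
        · omega
        · omega
        · subst h1; exact ⟨Or.inl rfl, ha0, by rw [hne _ (by omega)]; exact h2⟩
        · subst h1; exact ⟨Or.inr rfl, ha0, by rw [hne _ (by omega)]; exact h2⟩
    · rw [hne i hi]
      by_cases hj : j = v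
      · subst hj
        rw [hself]
        constructor
        · rintro ⟨hij, h1, _⟩
          rcases hij with h | h
          · have : i = j - 1 := by omega
            subst this
            exact Or.inl (Or.inl (Or.inr ⟨⟨rfl, rfl⟩, h1⟩))
          · have : i = j - 2 := by omega
            subst this
            exact Or.inl (Or.inl (Or.inl (Or.inr ⟨⟨rfl, rfl⟩, h1⟩)))
        · rintro ((((⟨_, _, h1⟩ | ⟨⟨h1, _⟩, h2⟩) | ⟨⟨h1, _⟩, h2⟩) | ⟨⟨h1, _⟩, _⟩) | ⟨⟨h1, _⟩, _⟩)
          · exact absurd hp h1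
          · subst h1; exact ⟨by omega, h2, ha0⟩
          · subst h1; exact ⟨by omega, h2, ha0⟩
          · exact absurd h1 hi
          · exact absurd h1 hi
      · rw [hne j hj]
        constructor
        · intro h
          exact Or.inl (Or.inl (Or.inl (Or.inl h)))
        · rintro ((((h | ⟨⟨_, h1⟩, _⟩) | ⟨⟨_, h1⟩, _⟩) | ⟨⟨h1, _⟩, _⟩) | ⟨⟨h1, _⟩, _⟩)
          · exact h
          · exact absurd h1 hj
          · exact absurd h1 hj
          · exact absurd h1 hi
          · exact absurd h1 hi
  have hout : ∀ {S : Set (ℕ × ℕ)} {x e : ℕ × ℕ} {b : ℕ}, e ∉ S → e ≠ x →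
      e ∉ S ∪ {y | y = x ∧ b ≠ 0} := by
    intro S x e b h1 h2 h3
    rcases h3 with h3 | h3
    · exact h1 h3
    · exact h2 h3.1
  have hsub : ∀ {S S' : Set (ℕ × ℕ)}, S ⊆ S' → (¬ Set.InjOn (cf g') S) →
      ¬ Set.InjOn (cf g') S' := fun h1 h2 h3 => h2 (h3.mono h1)
  have hpair : ∀ {i j i' j' : ℕ}, i ≠ i' ∨ j ≠ j' → (i, j) ≠ (i', j') := by
    intro i j i' j' h1 h2
    rw [Prod.mk.injEq] at h2
    omega
  rcases step1_spec (a := a) (b := g (v - 2)) h0 (e := (v - 2, v)) (hnot _ (Or.inr rfl))
    (fun _ => hcode1 _ (by omega)) with ⟨U1, h1, s1⟩ | ⟨h1, s1⟩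
  · rcases step1_spec (a := a) (b := g (v - 1)) h1 (e := (v - 1, v))
      (hout (hnot _ (Or.inr rfl)) (hpair (by omega)))
      (fun _ => hcode1 _ (by omega)) with ⟨U2, h2, s2⟩ | ⟨h2, s2⟩
    · rcases step1_spec (a := a) (b := g (v + 1)) h2 (e := (v, v + 1))
        (hout (hout (hnot _ (Or.inl rfl)) (hpair (by omega))) (hpair (by omega)))
        (fun _ => hcode2 _ (by omega)) with ⟨U3, h3, s3⟩ | ⟨h3, s3⟩
      · rcases step1_spec (a := a) (b := g (v + 2)) h3 (e := (v, v + 2))
          (hout (hout (hout (hnot _ (Or.inl rfl)) (hpair (by omega))) (hpair (by omega)))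
            (hpair (by omega)))
          (fun _ => hcode2 _ (by omega)) with ⟨U4, h4, s4⟩ | ⟨h4, s4⟩
        · left
          refine ⟨U4, ?_, ?_⟩
          · rw [hE]; exact h4
          · intro α fail f
            unfold place
            simp only [force_eq]
            rw [s1, s2, s3, s4]
        · right
          refine ⟨?_, ?_⟩
          · rw [hE]; exact h4
          · intro α fail f
            unfold place
            simp only [force_eq]
            rw [s1, s2, s3, s4]
      · right
        refine ⟨?_, ?_⟩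
        · rw [hE]; exact hsub Set.subset_union_left h3
        · intro α fail f
          unfold place
          simp only [force_eq]
          rw [s1, s2, s3]
    · right
      refine ⟨?_, ?_⟩
      · rw [hE]
        exact hsub (Set.subset_union_left.trans Set.subset_union_left) h2
      · intro α fail f
        unfold place
        simp only [force_eq]
        rw [s1, s2]
  · right
    refine ⟨?_, ?_⟩
    · rw [hE]
      exact hsub ((Set.subset_union_left.trans Set.subset_union_left).trans
        Set.subset_union_left) h1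
    · intro α fail f
      unfold place
      simp only [force_eq]
      rw [s1]

/-! ## Decoding -/

/-- The position described by the digits `g`. -/
def dec (n k : ℕ) (g : ℕ → ℕ) : Fin n → Option (Fin k) := fun i =>
  if h : 1 ≤ g (i + 2) ∧ g (i + 2) ≤ k then some ⟨g (i + 2) - 1, by omega⟩ else none

section Dec

variable {n k : ℕ}

theorem dec_eq_some {g : ℕ → ℕ} {i : Fin n} {a : Fin k} :
    dec n k g i = some a ↔ g (i + 2) = a + 1 := by
  unfold dec
  split_ifs with h
  · rw [Option.some.injEq]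
    constructor
    · intro hh
      have := congrArg Fin.val hh
      simp only at this
      omega
    · intro hh
      apply Fin.ext
      simp only
      omega
  · constructor
    · intro hh; exact absurd hh (by simp)
    · intro hh
      exact absurd ⟨by omega, by have := a.2; omega⟩ h

theorem dec_eq_none {g : ℕ → ℕ} (hl : ∀ i, g i ≤ k) {i : Fin n} :
    dec n k g i = none ↔ g (i + 2) = 0 := by
  have := hl (i + 2)
  unfold dec
  split_ifs with h
  · constructor
    · intro hh; exact absurd hh (by simp)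
    · intro hh; omega
  · constructor
    · intro _; omega
    · intro _; rfl

theorem dec_set {g : ℕ → ℕ} {v a : ℕ} (hv2 : 2 ≤ v) (hv : v < n + 2) (ha : 1 ≤ a)
    (hak : a ≤ k) :
    dec n k (update g v a) = update (dec n k g) ⟨v - 2, by omega⟩ (some ⟨a - 1, by omega⟩) := by
  funext i
  by_cases hi : i = ⟨v - 2, by omega⟩
  · subst hi
    rw [update_self, dec_eq_some]
    have : ((⟨v - 2, by omega⟩ : Fin n) : ℕ) + 2 = v := by simp only; omega
    rw [this, update_self]
    simp only
    omega
  · rw [update_of_ne hi]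
    have : (i : ℕ) + 2 ≠ v := fun h => hi (Fin.ext (by simp only; omega))
    unfold dec
    simp only [update_of_ne this]

theorem dec_inj_val {g : ℕ → ℕ} (hl : ∀ i, g i ≤ k) {i j : Fin n} :
    dec n k g i = dec n k g j ↔ g (i + 2) = g (j + 2) := by
  constructor
  · intro h
    cases hi : dec n k g i with
    | none =>
      rw [hi] at h
      rw [(dec_eq_none hl).1 hi, (dec_eq_none hl).1 h.symm]
    | some a =>
      rw [hi] at h
      rw [dec_eq_some.1 hi, dec_eq_some.1 h.symm]
  · intro h
    unfold dec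
    simp only [h]

theorem cd_inj8 (a : ℕ) (ha : a < 8) (b : ℕ) (hb : b < 8) (c : ℕ) (hc : c < 8) (d : ℕ)
    (hd : d < 8) (h : cd a b = cd c d) : (a = c ∧ b = d) ∨ (a = d ∧ b = c) := by
  have key : ∀ a b c d : Fin 8, cd a b = cd c d → (a = c ∧ b = d) ∨ (a = d ∧ b = c) := by
    decide +kernel
  have := key ⟨a, ha⟩ ⟨b, hb⟩ ⟨c, hc⟩ ⟨d, hd⟩ h
  simpa only [Fin.mk.injEq] using this

/-- Legality in terms of the codes. -/
theorem legal_iff (hk : k ≤ 7) {g : ℕ → ℕ} (hl : ∀ i, g i ≤ k)
    (hz : ∀ i, (i < 2 ∨ n + 2 ≤ i) → g i = 0) :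
    Set.InjOn (cf g) (E g) ↔ Legal (T n) (dec n k g) := by
  have hlt : ∀ i, g i < 8 := fun i => by have := hl i; omega
  constructor
  · intro h
    -- every edge has an ordered representative
    have key : ∀ x ∈ colouredEdges (T n) (dec n k g), ∃ i j : Fin n, x = s(i, j) ∧
        ((i : ℕ) + 2, (j : ℕ) + 2) ∈ E g := by
      intro x hx
      obtain ⟨hx1, hx2⟩ := hx
      induction x using Sym2.ind with
      | _ i j =>
        rw [SimpleGraph.mem_edgeSet] at hx1
        have hi : g (i + 2) ≠ 0 := fun h0 => hx2 i (Sym2.mem_mk_left i j) ((dec_eq_none hl).2 h0)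
        have hj : g (j + 2) ≠ 0 := fun h0 => hx2 j (Sym2.mem_mk_right i j) ((dec_eq_none hl).2 h0)
        by_cases hij : (i : ℕ) < j
        · refine ⟨i, j, rfl, ?_, hi, hj⟩
          simp only [T] at hx1
          simp only
          omega
        · refine ⟨j, i, Sym2.eq_swap, ?_, hj, hi⟩
          simp only [T] at hx1
          simp only
          omega
    intro x hx y hy hxy
    obtain ⟨i, j, rfl, he⟩ := key x hx
    obtain ⟨i', j', rfl, he'⟩ := key y hy
    simp only [Sym2.map_mk, Sym2.eq_iff, dec_inj_val hl] at hxy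
    have hcode : cf g ((i : ℕ) + 2, (j : ℕ) + 2) = cf g ((i' : ℕ) + 2, (j' : ℕ) + 2) := by
      simp only [cf]
      rcases hxy with ⟨h1, h2⟩ | ⟨h1, h2⟩
      · rw [h1, h2]
      · rw [h1, h2]; exact Nat.add_comm _ _
    have := h he he' hcode
    rw [Prod.mk.injEq] at this
    have h1 : i = i' := Fin.ext (by omega)
    have h2 : j = j' := Fin.ext (by omega)
    rw [h1, h2]
  · rintro h ⟨i, j⟩ ⟨he, h1, h2⟩ ⟨i', j'⟩ ⟨he', h1', h2'⟩ hcode
    simp only at he h1 h2 he' h1' h2'
    have hr : ∀ i, g i ≠ 0 → 2 ≤ i ∧ i < n + 2 := by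
      intro i hi
      constructor
      · by_contra hlt; exact hi (hz i (by omega))
      · by_contra hlt; exact hi (hz i (by omega))
    have hi := hr i h1
    have hj := hr j h2
    have hi' := hr i' h1'
    have hj' := hr j' h2'
    have hmem : ∀ (a b : ℕ) (ha : a < n) (hb : b < n), (b = a + 1 ∨ b = a + 2) →
        g (a + 2) ≠ 0 → g (b + 2) ≠ 0 →
        s((⟨a, ha⟩ : Fin n), ⟨b, hb⟩) ∈ colouredEdges (T n) (dec n k g) := by
      intro a b ha hb hab h1 h2
      refine ⟨?_, ?_⟩
      · rw [SimpleGraph.mem_edgeSet]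
        simp only [T]
        omega
      · intro v hv
        rw [Sym2.mem_iff] at hv
        rcases hv with rfl | rfl
        · intro h0; exact h1 ((dec_eq_none hl).1 h0)
        · intro h0; exact h2 ((dec_eq_none hl).1 h0)
    obtain ⟨i, rfl⟩ : ∃ a, i = a + 2 := ⟨i - 2, by omega⟩
    obtain ⟨j, rfl⟩ : ∃ a, j = a + 2 := ⟨j - 2, by omega⟩
    obtain ⟨i', rfl⟩ : ∃ a, i' = a + 2 := ⟨i' - 2, by omega⟩
    obtain ⟨j', rfl⟩ : ∃ a, j' = a + 2 := ⟨j' - 2, by omega⟩
    have hcode2 := cd_inj8 _ (hlt _) _ (hlt _) _ (hlt _) _ (hlt _) hcode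
    have hi : i < n := by omega
    have hj : j < n := by omega
    have hi' : i' < n := by omega
    have hj' : j' < n := by omega
    have heq : Sym2.map (dec n k g) s((⟨i, hi⟩ : Fin n), ⟨j, hj⟩)
        = Sym2.map (dec n k g) s((⟨i', hi'⟩ : Fin n), ⟨j', hj'⟩) := by
      simp only [Sym2.map_mk, Sym2.eq_iff, dec_inj_val hl]
      exact hcode2
    have := h (hmem i j hi hj (by omega) h1 h2) (hmem i' j' hi' hj' (by omega) h1' h2') heq
    rw [Sym2.eq_iff] at this
    simp only [Fin.mk.injEq] at this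
    rw [Prod.mk.injEq]
    omega

end Dec

/-- The invariant of the checker. -/
def Inv (n m p U : ℕ) : Prop :=
  (∀ i, (i < 2 ∨ n + 2 ≤ i) → dg p i = 0) ∧ (∀ i, dg p i ≤ m) ∧ Good (E (dg p)) (cf (dg p)) U

theorem inv_place {n m p U v a k : ℕ} (hI : Inv n m p U) (hv : 2 ≤ v) (hvn : v < n + 2)
    (hp : dg p v = 0) (ha0 : 1 ≤ a) (ha : a ≤ k) (hm : m ≤ k) (hk : k ≤ 7) :
    (∃ U', Inv n (max m a) (Nat.add p (Nat.shiftLeft a (Nat.mul 4 v))) U' ∧
      dec n k (dg (Nat.add p (Nat.shiftLeft a (Nat.mul 4 v)))) =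
        update (dec n k (dg p)) ⟨v - 2, by omega⟩ (some ⟨a - 1, by omega⟩) ∧
      Legal (T n) (update (dec n k (dg p)) ⟨v - 2, by omega⟩ (some ⟨a - 1, by omega⟩)) ∧
      ∀ (α : Type) (fail : α) (f : ℕ → ℕ → α),
        place p U v a fail f = f (Nat.add p (Nat.shiftLeft a (Nat.mul 4 v))) U') ∨
    ((¬ Legal (T n) (update (dec n k (dg p)) ⟨v - 2, by omega⟩ (some ⟨a - 1, by omega⟩))) ∧
      ∀ (α : Type) (fail : α) (f : ℕ → ℕ → α), place p U v a fail f = fail) := by
  obtain ⟨h1, h2, h3⟩ := hI
  have hfun : dg (Nat.add p (Nat.shiftLeft a (Nat.mul 4 v))) = update (dg p) v a :=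
    funext fun j => dg_add hp (by omega) j
  have hz : ∀ i, (i < 2 ∨ n + 2 ≤ i) → update (dg p) v a i = 0 := by
    intro i hi
    rw [update_of_ne (by omega)]
    exact h1 i hi
  have hle : ∀ i, update (dg p) v a i ≤ max m a := by
    intro i
    by_cases hi : i = v
    · subst hi; rw [update_self]; exact le_max_right _ _
    · rw [update_of_ne hi]; exact (h2 i).trans (le_max_left _ _)
  have hlek : ∀ i, update (dg p) v a i ≤ k := fun i => (hle i).trans (max_le hm ha)
  have hset := dec_set (n := n) (g := dg p) hv hvn ha0 ha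
  rcases place_spec h3 hv hp (by omega) (by omega) (U := U) (a := a) with ⟨U', hU, hf⟩ | ⟨hU, hf⟩
  · left
    refine ⟨U', ⟨?_, ?_, ?_⟩, ?_, ?_, hf⟩
    · rw [hfun]; exact hz
    · rw [hfun]; exact hle
    · rw [hfun]; exact hU
    · rw [hfun]; exact hset
    · rw [← hset]; exact (legal_iff hk hlek hz).1 hU.1
  · right
    refine ⟨?_, hf⟩
    rw [← hset, ← legal_iff hk hlek hz]
    exact hU

/-- Soundness of the checker. -/
theorem chk_sound {n k : ℕ} (hk : k ≤ 7) (W B : List ℕ) (hW : ∀ w, 2 ≤ w → w < n + 2 → w ∈ W)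
    (hB : ∀ b, 1 ≤ b → b ≤ k → b ∈ B) :
    ∀ (f p U m : ℕ) (s s' : List ℕ), Inv n m p U → m ≤ k →
      chk n k W B f p U m s = some s' → Wins (T n) (dec n k (dg p)) := by
  intro f
  induction f with
  | zero => intro p U m s s' _ _ h; simp [chk] at h
  | succ f ih =>
    intro p U m s s' hI hm h
    cases s with
    | nil => simp [chk] at h
    | cons t s =>
      rw [chk] at h
      simp only [force_eq, mx_eq] at h
      generalize t / 16 = v at h
      generalize t % 16 = a at h
      by_cases hc : (Nat.ble 2 v && (Nat.ble v (n + 1) && (Nat.beq (dg p v) 0 &&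
        (Nat.ble 1 a && Nat.ble a k)))) = true
      swap
      · rw [Bool.not_eq_true] at hc
        rw [hc, cond_false] at h
        exact absurd h (by simp)
      rw [hc, cond_true] at h
      simp only [Bool.and_eq_true, Nat.ble_eq, Nat.beq_eq] at hc
      obtain ⟨hv2, hvn, hv0, ha, hak⟩ := hc
      rcases inv_place hI hv2 (by omega) hv0 ha hak hm hk with ⟨U1, hI1, hd1, hL1, hf1⟩ | ⟨_, hf1⟩
      swap
      · rw [hf1] at h; exact absurd h (by simp)
      rw [hf1] at h
      have hm1 : max m a ≤ k := max_le hm hak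
      generalize Nat.add p (Nat.shiftLeft a (Nat.mul 4 v)) = p1 at *
      generalize max m a = m1 at *
      have hlk : ∀ i, dg p i ≤ k := fun i => (hI.2.1 i).trans hm
      have hlk1 : ∀ i, dg p1 i ≤ k := fun i => (hI1.2.1 i).trans hm1
      refine Wins.intro _ (dec n k (dg p1)) ⟨⟨v - 2, by omega⟩, ⟨a - 1, by omega⟩, ?_, hd1, ?_⟩ ?_
      · rw [dec_eq_none hlk]
        have : ((⟨v - 2, by omega⟩ : Fin n) : ℕ) + 2 = v := by simp only; omega
        rw [this]; exact hv0
      · rw [hd1]; exact hL1
      · rintro e ⟨w, b, hw, he, hlegal⟩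
        have hw0 : dg p1 (w + 2) = 0 := (dec_eq_none hlk1).1 hw
        -- the reply with the smallest unused colour covers all unused colours
        have hrep : ∀ (b : Fin k), (b : ℕ) ≤ m1 →
            Legal (T n) (update (dec n k (dg p1)) w (some b)) →
            Wins (T n) (update (dec n k (dg p1)) w (some b)) := by
          intro b hbm hL
          obtain ⟨s1, s2, h12⟩ := foldO_some _ _ _ _ h (w + 2) (hW _ (by omega) (by omega))
          have hbeq : Nat.beq (dg p1 (w + 2)) 0 = true := by rw [Nat.beq_eq]; exact hw0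
          rw [hbeq, cond_true] at h12
          obtain ⟨s3, s4, h34⟩ := foldO_some _ _ _ _ h12 (b + 1) (hB _ (by omega) b.2)
          have hble : Nat.ble ((b : ℕ) + 1) (Nat.add m1 1) = true := by
            rw [Nat.ble_eq]; exact Nat.succ_le_succ hbm
          rw [hble, cond_true] at h34
          rcases inv_place hI1 (v := w + 2) (a := b + 1) (by omega) (by omega) hw0 (by omega) b.2
            hm1 hk with ⟨U2, hI2, hd2, hL2, hf2⟩ | ⟨hL2, _⟩
          · rw [hf2] at h34
            have := ih _ _ _ _ _ hI2 (max_le hm1 b.2) h34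
            rw [hd2] at this
            exact this
          · exact absurd hL hL2
        by_cases hb : (b : ℕ) ≤ m1
        · rw [he] at hlegal ⊢
          exact hrep b hb hlegal
        · have hm'k : m1 < k := by have := b.2; omega
          have h2 : ∀ u, (dec n k (dg p1) u).map (Equiv.swap b ⟨m1, hm'k⟩)
              = dec n k (dg p1) u := by
            intro u
            cases hu : dec n k (dg p1) u with
            | none => rfl
            | some c =>
              have hc := dec_eq_some.1 hu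
              have hc2 := hI1.2.1 (u + 2)
              rw [Option.map_some, Equiv.swap_apply_of_ne_of_ne]
              · rintro rfl; omega
              · rintro rfl; change _ = m1 + 1 at hc; omega
          have h3 : (fun u => (e u).map (Equiv.swap b ⟨m1, hm'k⟩))
              = update (dec n k (dg p1)) w (some ⟨m1, hm'k⟩) := by
            rw [he]
            funext u
            by_cases hu : u = w
            · subst hu; simp
            · rw [update_of_ne hu, update_of_ne hu]
              exact h2 u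
          have h4 : e = fun u => ((update (dec n k (dg p1)) w (some ⟨m1, hm'k⟩)) u).map
              (Equiv.swap b ⟨m1, hm'k⟩) := by
            rw [← h3]
            funext u
            simp [Option.map_map, Function.comp_def]
          have h5 : Legal (T n) (update (dec n k (dg p1)) w (some ⟨m1, hm'k⟩)) := by
            rw [← h3]
            exact legal_perm _ _ _ hlegal
          rw [h4]
          exact wins_perm _ _ _ (hrep ⟨m1, hm'k⟩ le_rfl h5)

theorem dg_zero (i : ℕ) : dg 0 i = 0 := by rw [dg_eq]; simp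

theorem inv_zero (n : ℕ) : Inv n 0 0 0 := by
  refine ⟨fun i _ => dg_zero i, fun i => (dg_zero i).le, ?_, ?_⟩
  · rintro ⟨i, j⟩ ⟨_, h, _⟩
    exact absurd (dg_zero i) h
  · intro x
    rw [Nat.zero_testBit]
    constructor
    · intro h; exact absurd h (by simp)
    · rintro ⟨⟨i, j⟩, ⟨_, h, _⟩, _⟩
      exact absurd (dg_zero i) h

/-! ## The edge-distinguishing chromatic number -/

/-- The Boolean search: no completion of the prefix of length `i` is edge-distinguishing. -/
noncomputable def noExt (n : ℕ) (B : List ℕ) : ℕ → ℕ → ℕ → ℕ → Bool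
  | 0, _, _, _ => false
  | f + 1, p, U, i => Nat.ble i (n + 1) &&
      List.rec (motive := fun _ => Bool) true
        (fun b _ ih => (place p U i b true fun p U => noExt n B f p U (Nat.add i 1)) && ih) B

theorem noExt_rec {B : List ℕ} {F : ℕ → Bool}
    (h : List.rec (motive := fun _ => Bool) true (fun b _ ih => F b && ih) B = true) :
    ∀ b ∈ B, F b = true := by
  induction B with
  | nil => intro b hb; simp at hb
  | cons a B ih =>
    change (F a && List.rec (motive := fun _ => Bool) true (fun b _ ih => F b && ih) B) = true at h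
    rw [Bool.and_eq_true] at h
    intro b hb
    rcases List.mem_cons.1 hb with rfl | hb
    · exact h.1
    · exact ih h.2 b hb

theorem noExt_sound {n k : ℕ} (hk : k ≤ 7) (B : List ℕ) (hB : ∀ b, 1 ≤ b → b ≤ k → b ∈ B)
    (c : Fin n → Fin k) (hc : EdgeDistinguishing (T n) c) :
    ∀ (f p U i : ℕ), 2 ≤ i → Inv n k p U →
      (∀ j : Fin n, (j : ℕ) + 2 < i → dg p (j + 2) = c j + 1) → (∀ j, i ≤ j → dg p j = 0) →
      noExt n B f p U i = false := by
  intro f
  induction f with
  | zero => intro p U i _ _ _ _; rfl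
  | succ f ih =>
    intro p U i hi2 hI h1 h2
    by_contra hne
    rw [Bool.not_eq_false] at hne
    rw [noExt, Bool.and_eq_true, Nat.ble_eq] at hne
    obtain ⟨hi, hall⟩ := hne
    have hin : i - 2 < n := by omega
    have hlk : ∀ j, dg p j ≤ k := hI.2.1
    have hb := noExt_rec hall ((c ⟨i - 2, hin⟩ : ℕ) + 1) (hB _ (by omega) (c _).2)
    have hmax : max k ((c ⟨i - 2, hin⟩ : ℕ) + 1) = k := max_eq_left (c _).2
    have hlegal : Legal (T n) (update (dec n k (dg p)) ⟨i - 2, hin⟩
        (some ⟨(c ⟨i - 2, hin⟩ : ℕ) + 1 - 1, by have := (c ⟨i - 2, hin⟩).2; omega⟩)) := by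
      have hval : ∀ v : Fin n, update (dec n k (dg p)) ⟨i - 2, hin⟩
          (some ⟨(c ⟨i - 2, hin⟩ : ℕ) + 1 - 1, by have := (c ⟨i - 2, hin⟩).2; omega⟩) v ≠ none →
          update (dec n k (dg p)) ⟨i - 2, hin⟩
          (some ⟨(c ⟨i - 2, hin⟩ : ℕ) + 1 - 1, by have := (c ⟨i - 2, hin⟩).2; omega⟩) v
            = some (c v) := by
        intro v hv
        by_cases hvi : v = ⟨i - 2, hin⟩
        · subst hvi
          rw [update_self]
          congr 1
        · rw [update_of_ne hvi] at hv ⊢
          rw [dec_eq_some]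
          by_cases hlt : (v : ℕ) + 2 < i
          · exact h1 v hlt
          · exact absurd ((dec_eq_none hlk).2 (h2 _ (by omega))) hv
      intro x hx y hy hxy
      have key : ∀ x ∈ colouredEdges (T n) (update (dec n k (dg p)) ⟨i - 2, hin⟩
          (some ⟨(c ⟨i - 2, hin⟩ : ℕ) + 1 - 1, by have := (c ⟨i - 2, hin⟩).2; omega⟩)),
          Sym2.map (update (dec n k (dg p)) ⟨i - 2, hin⟩
            (some ⟨(c ⟨i - 2, hin⟩ : ℕ) + 1 - 1, by have := (c ⟨i - 2, hin⟩).2; omega⟩)) x
            = Sym2.map some (Sym2.map c x) := by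
        intro x hx
        rw [Sym2.map_map]
        exact Sym2.map_congr fun v hvx => hval v (hx.2 v hvx)
      rw [key x hx, key y hy] at hxy
      exact hc hx.1 hy.1 (Sym2.map.injective (Option.some_injective _) hxy)
    rcases inv_place hI (v := i) (a := (c ⟨i - 2, hin⟩ : ℕ) + 1) hi2 (by omega)
      (h2 i le_rfl) (by omega) (c _).2 le_rfl hk with ⟨U', hI', hd, hL, hf⟩ | ⟨hL, _⟩
    · rw [hf] at hb
      rw [hmax] at hI'
      have hdg : ∀ j, dg (Nat.add p (Nat.shiftLeft ((c ⟨i - 2, hin⟩ : ℕ) + 1) (Nat.mul 4 i))) j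
          = update (dg p) i ((c ⟨i - 2, hin⟩ : ℕ) + 1) j :=
        dg_add (h2 i le_rfl) (by have := (c ⟨i - 2, hin⟩).2; omega)
      have := ih _ U' (i + 1) (by omega) hI' ?_ ?_
      · change noExt n B f _ U' (i + 1) = true at hb
        rw [this] at hb
        exact Bool.false_ne_true hb
      · intro j hj
        rw [hdg]
        by_cases hji : (j : ℕ) + 2 = i
        · have : j = ⟨i - 2, hin⟩ := Fin.ext (by simp only; omega)
          subst this
          rw [hji, update_self]
        · rw [update_of_ne hji]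
          exact h1 j (by omega)
      · intro j hj
        rw [hdg, update_of_ne (by omega)]
        exact h2 j (by omega)
    · exact hL hlegal

theorem no6 : ¬ ∃ c : Fin 8 → Fin 6, EdgeDistinguishing (T 8) c := by
  rintro ⟨c, hc⟩
  have hI : Inv 8 6 0 0 := by
    obtain ⟨h1, h2, h3⟩ := inv_zero 8
    exact ⟨h1, fun i => (h2 i).trans (by norm_num), h3⟩
  have h := noExt_sound (by norm_num) [1, 2, 3, 4, 5, 6] (by intro b h1 h2; simp; omega) c hc 9
    0 0 2 le_rfl hI (fun j hj => by omega) (fun j _ => dg_zero j)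
  have h2 : noExt 8 [1, 2, 3, 4, 5, 6] 9 0 0 2 = true := by decide +kernel
  rw [h] at h2
  exact Bool.false_ne_true h2

/-- Restriction of a colouring to the first vertices. -/
theorem restrict {m n j k : ℕ} (hmn : m ≤ n) (hjk : j ≤ k)
    (h : ∃ c : Fin n → Fin j, EdgeDistinguishing (T n) c) :
    ∃ c : Fin m → Fin k, EdgeDistinguishing (T m) c := by
  obtain ⟨c, hc⟩ := h
  refine ⟨fun i => (c (i.castLE hmn)).castLE hjk, ?_⟩
  intro x hx y hy hxy
  have hinj : Function.Injective (Fin.castLE hmn : Fin m → Fin n) := Fin.castLE_injective hmn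
  have hmem : ∀ x ∈ (T m).edgeSet, Sym2.map (Fin.castLE hmn) x ∈ (T n).edgeSet := by
    intro x hx
    induction x using Sym2.ind with
    | _ a b =>
      rw [Sym2.map_mk, SimpleGraph.mem_edgeSet]
      rw [SimpleGraph.mem_edgeSet] at hx
      exact hx
  apply Sym2.map.injective hinj
  apply hc (hmem x hx) (hmem y hy)
  apply Sym2.map.injective (Fin.castLE_injective hjk)
  rw [Sym2.map_map, Sym2.map_map, Sym2.map_map, Sym2.map_map]
  exact hxy

/-- An edge-distinguishing colouring of `T₁₀`. -/
def c10 : Fin 10 → Fin 7 := ![0, 1, 2, 3, 4, 0, 5, 6, 1, 4]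

theorem col10 : ∃ c : Fin 10 → Fin 7, EdgeDistinguishing (T 10) c := by
  refine ⟨c10, ?_⟩
  have key : ∀ a b c d : Fin 10, ((a : ℕ) + 1 = b ∨ (a : ℕ) + 2 = b) →
      ((c : ℕ) + 1 = d ∨ (c : ℕ) + 2 = d) →
      ((c10 a = c10 c ∧ c10 b = c10 d) ∨ (c10 a = c10 d ∧ c10 b = c10 c)) → a = c ∧ b = d := by
    decide +kernel
  have hrep : ∀ x ∈ (T 10).edgeSet, ∃ a b : Fin 10, x = s(a, b) ∧
      ((a : ℕ) + 1 = b ∨ (a : ℕ) + 2 = b) := by
    intro x hx
    induction x using Sym2.ind with
    | _ a b =>
      rw [SimpleGraph.mem_edgeSet] at hx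
      simp only [T] at hx
      by_cases h : (a : ℕ) < b
      · exact ⟨a, b, rfl, by omega⟩
      · exact ⟨b, a, Sym2.eq_swap, by omega⟩
  intro x hx y hy hxy
  obtain ⟨a, b, rfl, hab⟩ := hrep x hx
  obtain ⟨c, d, rfl, hcd⟩ := hrep y hy
  rw [Sym2.map_mk, Sym2.map_mk, Sym2.eq_iff] at hxy
  obtain ⟨h1, h2⟩ := key a b c d hab hcd hxy
  rw [h1, h2]

theorem lam_eq {n : ℕ} (h8 : 8 ≤ n) (h10 : n ≤ 10) : lam (T n) = 7 := by
  have hex : ∃ c : Fin n → Fin 7, EdgeDistinguishing (T n) c := restrict h10 le_rfl col10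
  apply le_antisymm
  · exact Nat.sInf_le hex
  · by_contra hlt
    have hmem : lam (T n) ∈ {k | ∃ c : Fin n → Fin k, EdgeDistinguishing (T n) c} :=
      Nat.sInf_mem ⟨7, hex⟩
    exact no6 (restrict h8 (by omega) hmem)

/-! ## The strategies -/

/-- Player 1's strategy on `T₈` (tokens `16 * v + a`, depth first). -/
def strat8 : List ℕ := [
  33, 129, 99, 149, 117, 83, 149, 117, 83, 149, 101, 83, 117, 101, 147, 99, 114, 134, 102, 99,
  99, 116, 129, 69, 70, 113, 114, 67, 114, 134, 70, 97, 98, 67, 97, 134, 86, 82, 117, 101, 82,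
  98, 68, 118, 86, 113, 147, 131, 82, 131, 145, 147, 115, 129, 131, 115, 113, 147, 131, 66, 131,
  145, 147, 115, 129, 131, 115, 113, 147, 51, 66, 146, 145, 133, 53, 145, 117, 53, 51, 133, 117,
  51, 51, 133, 117, 65, 147, 131, 97, 146, 147, 133, 85, 132, 149, 53, 84, 149, 53, 49, 51, 133,
  85, 49, 99, 149, 117, 83, 149, 117, 83, 149, 101, 83, 117, 101, 97, 146, 147, 117, 85, 146,
  116, 149, 53, 84, 149, 53, 49, 81, 65, 99, 133, 117, 83, 133, 117, 83, 133, 101, 83, 117, 101,
  51, 98, 115, 134, 102, 98, 98, 116, 129, 69, 70, 113, 66, 114, 115, 134, 70, 97, 66, 99, 97,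
  134, 86, 82, 101, 69, 99, 83, 68, 118, 86]

/-- Player 1's strategy on `T₁₀` (tokens `16 * v + a`, depth first). -/
def strat10 : List ℕ := [
  33, 129, 177, 116, 100, 177, 116, 84, 177, 100, 84, 163, 180, 118, 102, 180, 118, 86, 85, 181,
  102, 102, 84, 118, 102, 147, 180, 118, 102, 180, 118, 86, 85, 181, 102, 102, 84, 118, 102, 82,
  116, 100, 82, 116, 166, 150, 100, 166, 150, 100, 166, 118, 100, 150, 118, 145, 161, 116, 116,
  116, 84, 129, 180, 100, 113, 101, 183, 167, 69, 183, 167, 69, 183, 103, 69, 167, 103, 163, 181,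
  85, 177, 132, 116, 113, 85, 183, 167, 69, 183, 167, 69, 183, 87, 69, 167, 87, 67, 101, 183,
  167, 85, 183, 167, 85, 183, 103, 85, 167, 103, 68, 161, 177, 135, 103, 161, 161, 165, 183, 87,
  102, 167, 87, 87, 87, 87, 83, 83, 183, 135, 99, 83, 167, 135, 82, 180, 100, 177, 83, 99, 68,
  100, 116, 82, 84, 98, 82, 116, 100, 97, 181, 85, 98, 132, 116, 97, 165, 85, 178, 130, 145, 117,
  167, 135, 101, 167, 135, 101, 167, 119, 101, 135, 119, 162, 116, 84, 130, 117, 85, 130, 82,
  164, 132, 131, 164, 161, 84, 84, 82, 114, 164, 84, 82, 115, 164, 161, 84, 84, 82, 83, 117, 167,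
  135, 101, 167, 135, 101, 167, 119, 101, 135, 119, 82, 132, 100, 99, 165, 85, 113, 98, 116, 84,
  145, 101, 135, 119, 85, 135, 119, 85, 135, 103, 85, 119, 103, 178, 98, 133, 167, 151, 117, 167,
  151, 117, 167, 135, 117, 151, 135, 130, 130, 117, 53, 51, 133, 167, 151, 117, 167, 151, 117,
  167, 135, 117, 151, 135, 131, 85, 167, 151, 53, 167, 151, 53, 167, 87, 53, 151, 87, 162, 84,
  134, 102, 52, 134, 102, 52, 134, 86, 52, 102, 86, 131, 165, 53, 130, 85, 53, 99, 85, 151, 119,
  119, 53, 151, 119, 119, 53, 151, 87, 87, 53, 119, 87, 87, 53, 119, 87, 87, 82, 114, 165, 53,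
  51, 101, 135, 119, 85, 135, 119, 85, 135, 103, 85, 119, 103, 98, 117, 167, 135, 53, 167, 135,
  53, 167, 119, 53, 135, 119, 113, 84, 134, 102, 52, 134, 102, 52, 134, 86, 52, 102, 86, 114,
  133, 53, 98, 147, 181, 165, 178, 163, 177, 116, 117, 161, 162, 115, 181, 165, 145, 146, 145,
  181, 133, 130, 164, 148, 130, 145, 165, 133, 114, 178, 164, 132, 162, 177, 68, 69, 178, 164,
  132, 162, 177, 52, 53, 177, 68, 52, 148, 180, 161, 183, 71, 180, 161, 183, 55, 53, 183, 71, 53,
  183, 71, 53, 167, 71, 49, 53, 167, 71, 161, 68, 52, 132, 179, 161, 183, 71, 179, 161, 183, 55,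
  53, 183, 71, 53, 183, 71, 53, 167, 71, 49, 53, 167, 71, 145, 68, 52, 177, 68, 52, 145, 69, 183,
  135, 53, 183, 135, 53, 183, 71, 53, 135, 71, 129, 68, 52, 49, 164, 132, 145, 69, 167, 135, 53,
  167, 135, 53, 167, 71, 53, 135, 71, 146, 114, 180, 164, 162, 116, 84, 130, 179, 84, 84, 162,
  178, 132, 52, 130, 179, 52, 52, 163, 180, 180, 51, 49, 180, 164, 132, 178, 165, 183, 87, 165,
  183, 87, 165, 183, 55, 50, 183, 87, 53, 167, 87, 49, 50, 167, 87, 178, 84, 52, 51, 179, 84, 84,
  116, 178, 165, 183, 87, 165, 183, 87, 165, 183, 55, 50, 183, 87, 53, 167, 87, 49, 50, 167, 87,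
  49, 180, 116, 81, 81, 177, 132, 133, 81, 164, 132, 49, 132, 116, 113, 164, 164, 51, 81, 147,
  181, 165, 178, 163, 177, 116, 117, 161, 162, 115, 181, 165, 145, 146, 145, 181, 133, 130, 164,
  148, 130, 145, 165, 133, 145, 67, 101, 183, 167, 85, 183, 167, 85, 183, 103, 85, 167, 103, 51,
  101, 183, 167, 85, 183, 167, 85, 183, 103, 85, 167, 103, 51, 101, 183, 167, 69, 183, 167, 69,
  183, 103, 69, 167, 103, 51, 85, 183, 167, 69, 183, 167, 69, 183, 87, 69, 167, 87, 51, 85, 183,
  103, 69, 183, 103, 69, 183, 87, 69, 103, 87, 51, 85, 167, 103, 69, 167, 103, 69, 167, 87, 69,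
  103, 87, 49, 178, 164, 132, 162, 177, 100, 100, 101, 146, 180, 164, 145, 180, 164, 162, 177,
  84, 84, 85, 177, 100, 84, 161, 180, 84, 145, 165, 182, 102, 180, 166, 86, 85, 182, 102, 100,
  166, 86, 98, 180, 164, 97, 180, 164, 132, 179, 161, 182, 102, 179, 177, 167, 87, 85, 182, 102,
  85, 183, 103, 85, 167, 103, 82, 85, 167, 103, 97, 180, 148, 83, 177, 100, 100, 101, 130, 177,
  84, 84, 84, 129, 100, 84, 82, 164, 132, 130, 164, 161, 84, 84, 83, 161, 67, 180, 118, 102, 117,
  182, 86, 101, 182, 86, 84, 118, 102, 82, 180, 116, 178, 66, 180, 116, 82, 180, 52, 99, 69, 182,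
  86, 53, 182, 86, 180, 70, 54, 84, 70, 54, 81, 178, 82, 82, 97, 117, 85, 82, 82, 98, 85, 53, 97,
  49, 66, 117, 53, 81, 50, 65, 117, 85, 65, 81, 51, 101, 69, 65, 99, 133, 183, 167, 117, 183,
  167, 117, 183, 135, 117, 167, 135, 83, 133, 183, 167, 117, 183, 167, 117, 183, 135, 117, 167,
  135, 83, 133, 183, 167, 101, 183, 167, 101, 183, 135, 101, 167, 135, 83, 117, 183, 167, 101,
  183, 167, 101, 183, 119, 101, 167, 119, 83, 117, 183, 135, 101, 183, 135, 101, 183, 119, 101,
  135, 119, 83, 117, 167, 135, 101, 167, 135, 101, 167, 119, 101, 135, 119, 178, 82, 132, 100,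
  98, 66, 101, 135, 119, 85, 135, 119, 85, 135, 103, 85, 119, 103, 82, 132, 100, 51, 101, 135,
  119, 85, 135, 119, 85, 135, 103, 85, 119, 103, 98, 85, 53, 98, 49, 132, 100, 99, 132, 132, 129,
  52, 49, 49, 132, 116, 50, 83, 132, 132, 129, 52, 49, 49, 132, 100, 67, 133, 53, 81, 66, 85,
  119, 103, 53, 119, 103, 53, 119, 87, 53, 103, 87, 129, 67, 180, 118, 102, 117, 182, 86, 101,
  182, 86, 84, 118, 102, 82, 180, 116, 178, 66, 180, 116, 82, 180, 52, 99, 69, 182, 86, 53, 182,
  86, 180, 70, 54, 84, 70, 54, 81, 97, 130, 180, 116, 146, 116, 84, 145, 181, 85, 146, 147, 117,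
  183, 135, 53, 183, 135, 53, 183, 119, 53, 135, 119, 145, 181, 53, 147, 180, 180, 50, 83, 178,
  52, 52, 132, 178, 149, 183, 87, 149, 183, 87, 149, 183, 55, 177, 151, 55, 50, 183, 87, 53, 151,
  87, 49, 49, 50, 151, 87, 178, 84, 52, 49, 180, 116, 116, 178, 149, 183, 87, 149, 183, 87, 149,
  183, 55, 177, 151, 55, 50, 183, 87, 53, 151, 87, 49, 49, 50, 151, 87, 51, 181, 85, 81, 81, 177,
  132, 133, 81, 148, 132, 129, 84, 52, 113, 148, 148, 149, 50, 50, 131, 117, 167, 151, 164, 85,
  167, 151, 85, 167, 119, 115, 129, 116, 100, 147, 131, 164, 69, 167, 135, 68, 69, 167, 103, 99,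
  161, 116, 84, 130, 164, 148, 131, 149, 167, 87, 145, 149, 167, 71, 82, 69, 167, 87, 82, 69,
  151, 87, 129, 84, 68, 130, 164, 68, 97, 161, 85, 167, 151, 85, 167, 135, 84, 85, 151, 135, 82,
  116, 100, 82, 164, 148, 145, 83, 99, 68, 100, 116, 82, 84, 98, 98, 132, 116, 83, 131, 164, 69,
  167, 135, 68, 69, 167, 103, 99, 97, 116, 84, 83, 115, 148, 69, 135, 119, 119, 68, 69, 135, 103,
  103, 68, 69, 119, 103, 103, 99, 81, 130, 130, 145, 165, 133, 130, 130, 146, 133, 101, 145, 97,
  114, 165, 101, 129, 98, 113, 165, 133, 113, 129, 99, 149, 117]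

theorem firstWins_of_chk {n k : ℕ} (hk : k ≤ 7) (W B : List ℕ)
    (hW : ∀ w, 2 ≤ w → w < n + 2 → w ∈ W) (hB : ∀ b, 1 ≤ b → b ≤ k → b ∈ B) (s : List ℕ)
    (h : (chk n k W B (n + 1) 0 0 0 s).isSome = true) :
    FirstWins (T n) k := by
  obtain ⟨s', hs⟩ := Option.isSome_iff_exists.1 h
  have h1 := chk_sound hk W B hW hB _ _ _ 0 _ _ (inv_zero n) (Nat.zero_le _) hs
  have h2 : dec n k (dg 0) = fun _ => (none : Option (Fin k)) := by
    funext i
    rw [dec_eq_none (fun i => by rw [dg_zero]; omega)]
    exact dg_zero _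
  rw [h2] at h1
  exact h1

theorem first8 : FirstWins (T 8) 7 :=
  firstWins_of_chk le_rfl [2, 3, 4, 5, 6, 7, 8, 9] [1, 2, 3, 4, 5, 6, 7]
    (by intro w h1 h2; simp; omega) (by intro w h1 h2; simp; omega) strat8 (by decide +kernel)

theorem first10 : FirstWins (T 10) 7 :=
  firstWins_of_chk le_rfl [2, 3, 4, 5, 6, 7, 8, 9, 10, 11] [1, 2, 3, 4, 5, 6, 7]
    (by intro w h1 h2; simp; omega) (by intro w h1 h2; simp; omega) strat10 (by decide +kernel)

/-- **Disproof of Q1**: `λ(T₈) = λ(T₁₀) = 7`, Player 1 has a winning strategy in the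
edge-distinguishing game on `T₈` and on `T₁₀`, and hence it is not true that Player 2 has a
winning strategy on `T_n` for every `n ≥ 4`. -/
theorem result :
    lam (T 8) = 7 ∧ lam (T 10) = 7 ∧
    FirstWins (T 8) (lam (T 8)) ∧ FirstWins (T 10) (lam (T 10)) ∧
    (¬ SecondWins (T 8) (lam (T 8))) ∧ (¬ SecondWins (T 10) (lam (T 10))) ∧
    ¬ ∀ n, 4 ≤ n → SecondWins (T n) (lam (T n)) := by
  have h8 : lam (T 8) = 7 := lam_eq le_rfl (by norm_num)
  have h10 : lam (T 10) = 7 := lam_eq (by norm_num) le_rfl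
  have n8 : ¬ SecondWins (T 8) 7 := not_both _ _ first8
  have n10 : ¬ SecondWins (T 10) 7 := not_both _ _ first10
  refine ⟨h8, h10, ?_, ?_, ?_, ?_, ?_⟩
  · rw [h8]; exact first8
  · rw [h10]; exact first10
  · rw [h8]; exact n8
  · rw [h10]; exact n10
  · intro h
    have := h 10 (by norm_num)
    rw [h10] at this
    exact n10 this

end Pool.Agent.Results.MP_08a4a0_co.FirstWinsTen
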